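import Mathlib

/-!
# The algebra of Q1 is never nilpotent of degree `2n - 2`

`K⟨X,Y⟩⁺` is the free associative algebra without unit, `L₀` its Lie subalgebra generated by
`X, Y`, and `I` the ideal of `K⟨X,Y⟩⁺` generated by all `U ^ n` with `U ∈ L₀`.
We show that `X ^ (n-1) * Y ^ (n-1)` is not in `I`, for every `n ≥ 2` such that `(n-1)!` is
invertible in `K`.
The image of `X, Y` in the commuting product of `n - 1` exterior algebras in two variables
is used: there `X = ∑ x_i`, `Y = ∑ y_i`, `[X, Y] = 2 ∑ x_i y_i` is central, and every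
`αX + βY + γ[X,Y]` is a sum of `n - 1` commuting elements of square zero.
-/

set_option autoImplicit false

namespace Pool.Agent.Results.MP_776ebc_al.NeverNilpotent

universe u

/-- the free associative algebra with unit on `X = gen K 0` and `Y = gen K 1` -/
abbrev FA (K : Type u) [Field K] : Type u := FreeAlgebra K (Fin 2)

/-- the variables `X = gen K 0` and `Y = gen K 1` -/
noncomputable def gen (K : Type u) [Field K] (i : Fin 2) : FA K := FreeAlgebra.ι K i

/-- `K⟨X,Y⟩⁺`, the noncommutative polynomials with zero constant term: the non-unital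
subalgebra generated by `X` and `Y` -/
noncomputable def FPlus (K : Type u) [Field K] : NonUnitalSubalgebra K (FA K) :=
  NonUnitalAlgebra.adjoin K {gen K 0, gen K 1}

/-- `L₀`, the Lie subalgebra generated by `X` and `Y` under the bracket `[S,T] = ST - TS`: the
least `K`-subspace that contains `X` and `Y` and is closed under the bracket -/
noncomputable def L0 (K : Type u) [Field K] : Submodule K (FA K) :=
  sInf {L : Submodule K (FA K) | gen K 0 ∈ L ∧ gen K 1 ∈ L ∧
    ∀ S ∈ L, ∀ T ∈ L, S * T - T * S ∈ L}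

/-- the two-sided (algebra) ideal of `K⟨X,Y⟩⁺` generated by all `U ^ n` with `U ∈ L₀`: the least
`K`-subspace that contains these powers and is stable under left and right multiplication by
the elements of `K⟨X,Y⟩⁺` -/
noncomputable def I (K : Type u) [Field K] (n : ℕ) : Submodule K (FA K) :=
  sInf {J : Submodule K (FA K) | (∀ U ∈ L0 K, U ^ n ∈ J) ∧
    ∀ a ∈ FPlus K, ∀ x ∈ J, a * x ∈ J ∧ x * a ∈ J}

/-- `A^k = 0` for the quotient `A = K⟨X,Y⟩⁺ / I`: every product of `k` elements of `K⟨X,Y⟩⁺`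
lies in the ideal `I` -/
def PowZero (K : Type u) [Field K] (n k : ℕ) : Prop :=
  ∀ a : Fin k → FA K, (∀ i, a i ∈ FPlus K) → (List.ofFn a).prod ∈ I K n

section model

variable {K : Type u} [Field K]

/-- good pairs of elements -/
structure Good (K : Type u) [Field K] (B : Type u) [Ring B] [Algebra K B] (m : ℕ) (X Y : B) :
    Prop where
  cenX : X * (X * Y - Y * X) = (X * Y - Y * X) * X
  cenY : Y * (X * Y - Y * X) = (X * Y - Y * X) * Y
  nil : ∀ a b c : K, (a • X + b • Y + c • (X * Y - Y * X)) ^ (m + 1) = 0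
  ne : X ^ m * Y ^ m ≠ 0

/-- the matrix of left multiplication by `x` on the exterior algebra -/
def ex (B : Type u) [Ring B] : Matrix (Fin 4) (Fin 4) B :=
  !![0, 0, 0, 0; 1, 0, 0, 0; 0, 0, 0, 0; 0, 0, 1, 0]

/-- the matrix of left multiplication by `y` on the exterior algebra -/
def ey (B : Type u) [Ring B] : Matrix (Fin 4) (Fin 4) B :=
  !![0, 0, 0, 0; 0, 0, 0, 0; 1, 0, 0, 0; 0, -1, 0, 0]

/-- the matrix of left multiplication by `xy` on the exterior algebra -/
def ez (B : Type u) [Ring B] : Matrix (Fin 4) (Fin 4) B :=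
  !![0, 0, 0, 0; 0, 0, 0, 0; 0, 0, 0, 0; 1, 0, 0, 0]

variable (B : Type u) [Ring B]

theorem exx : ex B * ex B = 0 := by
  ext i j; fin_cases i <;> fin_cases j <;> simp [ex, Matrix.mul_apply, Fin.sum_univ_four]
theorem eyy : ey B * ey B = 0 := by
  ext i j; fin_cases i <;> fin_cases j <;> simp [ey, Matrix.mul_apply, Fin.sum_univ_four]
theorem exy : ex B * ey B = ez B := by
  ext i j; fin_cases i <;> fin_cases j <;> simp [ex, ey, ez, Matrix.mul_apply, Fin.sum_univ_four]
theorem eyx : ey B * ex B = - ez B := by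
  ext i j; fin_cases i <;> fin_cases j <;> simp [ex, ey, ez, Matrix.mul_apply, Fin.sum_univ_four]
theorem exz : ex B * ez B = 0 := by
  ext i j; fin_cases i <;> fin_cases j <;> simp [ex, ez, Matrix.mul_apply, Fin.sum_univ_four]
theorem ezx : ez B * ex B = 0 := by
  ext i j; fin_cases i <;> fin_cases j <;> simp [ex, ez, Matrix.mul_apply, Fin.sum_univ_four]
theorem eyz : ey B * ez B = 0 := by
  ext i j; fin_cases i <;> fin_cases j <;> simp [ey, ez, Matrix.mul_apply, Fin.sum_univ_four]
theorem ezy : ez B * ey B = 0 := by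
  ext i j; fin_cases i <;> fin_cases j <;> simp [ey, ez, Matrix.mul_apply, Fin.sum_univ_four]
theorem ezz : ez B * ez B = 0 := by
  ext i j; fin_cases i <;> fin_cases j <;> simp [ez, Matrix.mul_apply, Fin.sum_univ_four]

/-- scalar matrices commute with the integral matrices above -/
theorem comm_ex (b : B) : Matrix.scalar (Fin 4) b * ex B = ex B * Matrix.scalar (Fin 4) b := by
  ext i j; fin_cases i <;> fin_cases j <;>
    simp [ex, Matrix.scalar_apply, Matrix.diagonal_mul, Matrix.mul_diagonal]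
theorem comm_ey (b : B) : Matrix.scalar (Fin 4) b * ey B = ey B * Matrix.scalar (Fin 4) b := by
  ext i j; fin_cases i <;> fin_cases j <;>
    simp [ey, Matrix.scalar_apply, Matrix.diagonal_mul, Matrix.mul_diagonal]
theorem comm_ez (b : B) : Matrix.scalar (Fin 4) b * ez B = ez B * Matrix.scalar (Fin 4) b := by
  ext i j; fin_cases i <;> fin_cases j <;>
    simp [ez, Matrix.scalar_apply, Matrix.diagonal_mul, Matrix.mul_diagonal]

end model

theorem sq_zero_pow {R : Type u} [Ring R] (s e : R) (h : s * e = e * s) (he : e * e = 0) (k : ℕ) :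
    (s + e) ^ (k + 1) = s ^ (k + 1) + ((k + 1 : ℕ) : R) * (s ^ k * e) := by
  induction k with
  | zero => simp
  | succ k ih =>
    have hc : Commute s e := h
    have h1 : s ^ (k + 1) * e = e * s ^ (k + 1) := (hc.pow_left (k + 1)).eq
    have h2 : s ^ k * e * s = s ^ (k + 1) * e := by
      rw [mul_assoc, ← h, ← mul_assoc, ← pow_succ]
    rw [pow_succ, ih, add_mul, mul_add, mul_add, mul_assoc _ (s ^ k * e) s, h2,
      mul_assoc _ (s ^ k * e) e, mul_assoc (s ^ k) e e, he, mul_zero, mul_zero, add_zero,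
      ← pow_succ, add_assoc]
    congr 1
    push_cast
    noncomm_ring

section step

variable {K : Type u} [Field K] {B : Type u} [Ring B] [Algebra K B]

theorem smul_scalar (a : K) (x : B) :
    a • Matrix.scalar (Fin 4) x = Matrix.scalar (Fin 4) (a • x) := by
  ext i j
  by_cases h : i = j
  · subst h; simp [Matrix.scalar_apply]
  · simp [Matrix.scalar_apply, h]

theorem bracket_eq (X Y : B) :
    (Matrix.scalar (Fin 4) X + ex B) * (Matrix.scalar (Fin 4) Y + ey B) -
      (Matrix.scalar (Fin 4) Y + ey B) * (Matrix.scalar (Fin 4) X + ex B) =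
    Matrix.scalar (Fin 4) (X * Y - Y * X) + (ez B + ez B) := by
  have h1 := comm_ex B Y
  have h2 := comm_ey B X
  rw [map_sub, map_mul, map_mul, add_mul, mul_add, mul_add, add_mul, mul_add, mul_add, exy, eyx,
    h1, h2]
  abel

theorem step {m : ℕ} {X Y : B} (h : Good K B m X Y) (hm : ((m + 1 : ℕ) : K) ≠ 0) :
    Good K (Matrix (Fin 4) (Fin 4) B) (m + 1) (Matrix.scalar (Fin 4) X + ex B)
      (Matrix.scalar (Fin 4) Y + ey B) := by
  have hX0 : X ^ (m + 1) = 0 := by
    have := h.nil 1 0 0
    simpa using this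
  have hY0 : Y ^ (m + 1) = 0 := by
    have := h.nil 0 1 0
    simpa using this
  refine ⟨?_, ?_, ?_, ?_⟩
  · rw [bracket_eq]
    simp only [add_mul, mul_add, exz, ezx, ← comm_ex B (X * Y - Y * X), comm_ez B X]
    rw [← map_mul, h.cenX, map_mul]
    abel
  · rw [bracket_eq]
    simp only [add_mul, mul_add, eyz, ezy, ← comm_ey B (X * Y - Y * X), comm_ez B Y]
    rw [← map_mul, h.cenY, map_mul]
    abel
  · intro a b c
    rw [bracket_eq]
    set e : Matrix (Fin 4) (Fin 4) B := a • ex B + b • ey B + c • (ez B + ez B) with he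
    have h1 : a • (Matrix.scalar (Fin 4) X + ex B) + b • (Matrix.scalar (Fin 4) Y + ey B) +
        c • (Matrix.scalar (Fin 4) (X * Y - Y * X) + (ez B + ez B)) =
        Matrix.scalar (Fin 4) (a • X + b • Y + c • (X * Y - Y * X)) + e := by
      rw [he, map_add, map_add, ← smul_scalar, ← smul_scalar, ← smul_scalar, smul_add, smul_add,
        smul_add]
      abel
    have h2 : e * e = 0 := by
      rw [he]
      simp only [add_mul, mul_add, smul_mul_assoc, mul_smul_comm, smul_add, exx, eyy, exy, eyx,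
        exz, ezx, eyz, ezy, ezz, smul_zero, smul_neg, add_zero, zero_add]
      rw [smul_comm b a, neg_add_cancel]
    have h3 : Matrix.scalar (Fin 4) (a • X + b • Y + c • (X * Y - Y * X)) * e =
        e * Matrix.scalar (Fin 4) (a • X + b • Y + c • (X * Y - Y * X)) := by
      rw [he]
      simp only [mul_add, add_mul, smul_mul_assoc, mul_smul_comm, comm_ex, comm_ey, comm_ez]
    rw [h1, sq_zero_pow _ _ h3 h2, ← map_pow, ← map_pow, h.nil a b c]
    rw [pow_succ, h.nil a b c]
    simp
  · have h1 : (Matrix.scalar (Fin 4) X + ex B) ^ (m + 1) =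
        ((m + 1 : ℕ) : Matrix (Fin 4) (Fin 4) B) * (Matrix.scalar (Fin 4) (X ^ m) * ex B) := by
      rw [sq_zero_pow _ _ (comm_ex B X) (exx B), ← map_pow, ← map_pow, hX0, map_zero, zero_add]
    have h2 : (Matrix.scalar (Fin 4) Y + ey B) ^ (m + 1) =
        ((m + 1 : ℕ) : Matrix (Fin 4) (Fin 4) B) * (Matrix.scalar (Fin 4) (Y ^ m) * ey B) := by
      rw [sq_zero_pow _ _ (comm_ey B Y) (eyy B), ← map_pow, ← map_pow, hY0, map_zero, zero_add]
    have h3 : (Matrix.scalar (Fin 4) X + ex B) ^ (m + 1) *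
        (Matrix.scalar (Fin 4) Y + ey B) ^ (m + 1) =
        (((m + 1 : ℕ) : K) * ((m + 1 : ℕ) : K)) • (Matrix.scalar (Fin 4) (X ^ m * Y ^ m) * ez B) := by
      rw [h1, h2, map_mul, ← exy]
      have e1 : ∀ M : Matrix (Fin 4) (Fin 4) B,
          ((m + 1 : ℕ) : Matrix (Fin 4) (Fin 4) B) * M = ((m + 1 : ℕ) : K) • M := by
        intro M
        rw [Nat.cast_smul_eq_nsmul, nsmul_eq_mul]
      rw [e1, e1, smul_mul_smul_comm]
      congr 1
      rw [mul_assoc, mul_assoc, ← mul_assoc (ex B), ← comm_ex B (Y ^ m)]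
      simp only [mul_assoc]
    rw [h3]
    intro h0
    have h4 := congrFun (congrFun h0 3) 0
    have h5 : (Matrix.scalar (Fin 4) (X ^ m * Y ^ m) * ez B) 3 0 = X ^ m * Y ^ m := by
      simp [Matrix.scalar_apply, ez, Matrix.diagonal_mul]
    rw [Matrix.smul_apply, h5, Matrix.zero_apply] at h4
    exact h.ne ((smul_eq_zero.mp h4).resolve_left (mul_ne_zero hm hm))

end step

theorem exists_good (K : Type u) [Field K] (m : ℕ) (hm : ((m.factorial : ℕ) : K) ≠ 0) :
    ∃ (B : Type u) (_ : Ring B) (_ : Algebra K B) (X Y : B), Good K B m X Y := by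
  induction m with
  | zero =>
    refine ⟨K, inferInstance, inferInstance, 0, 0, ⟨by simp, by simp, by simp, by simp⟩⟩
  | succ m ih =>
    rw [Nat.factorial_succ, Nat.cast_mul] at hm
    obtain ⟨B, _, _, X, Y, h⟩ := ih (right_ne_zero_of_mul hm)
    exact ⟨_, inferInstance, inferInstance, _, _, step h (left_ne_zero_of_mul hm)⟩

/-- the elements `X^(n-1) Y^(n-1)` survive in the quotient -/
theorem not_mem (K : Type u) [Field K] (m : ℕ) (hm : ((m.factorial : ℕ) : K) ≠ 0) :
    gen K 0 ^ m * gen K 1 ^ m ∉ I K (m + 1) := by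
  obtain ⟨B, _, _, X, Y, h⟩ := exists_good K m hm
  let ρ : FA K →ₐ[K] B := FreeAlgebra.lift K ![X, Y]
  have hρ0 : ρ (gen K 0) = X := by simp [ρ, gen]
  have hρ1 : ρ (gen K 1) = Y := by simp [ρ, gen]
  have hL : ∀ U ∈ L0 K, ∃ a b c : K, ρ U = a • X + b • Y + c • (X * Y - Y * X) := by
    intro U hU
    let L : Submodule K (FA K) :=
      { carrier := {V | ∃ a b c : K, ρ V = a • X + b • Y + c • (X * Y - Y * X)}
        add_mem' := by
          rintro V W ⟨a, b, c, h1⟩ ⟨a', b', c', h2⟩
          refine ⟨a + a', b + b', c + c', ?_⟩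
          rw [map_add, h1, h2, add_smul, add_smul, add_smul]
          abel
        zero_mem' := ⟨0, 0, 0, by simp⟩
        smul_mem' := by
          rintro t V ⟨a, b, c, h1⟩
          refine ⟨t * a, t * b, t * c, ?_⟩
          rw [map_smul, h1, smul_add, smul_add, smul_smul, smul_smul, smul_smul] }
    have hLm : L ∈ {L : Submodule K (FA K) | gen K 0 ∈ L ∧ gen K 1 ∈ L ∧
        ∀ S ∈ L, ∀ T ∈ L, S * T - T * S ∈ L} := by
      refine ⟨⟨1, 0, 0, by simp [hρ0]⟩, ⟨0, 1, 0, by simp [hρ1]⟩, ?_⟩
      rintro S ⟨a, b, c, h1⟩ T ⟨a', b', c', h2⟩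
      refine ⟨0, 0, a * b' - b * a', ?_⟩
      rw [map_sub, map_mul, map_mul, h1, h2]
      set Z := X * Y - Y * X with hZ
      have hX := h.cenX
      have hY := h.cenY
      rw [← hZ] at hX hY
      have hXY : X * Y = Z + Y * X := by rw [hZ]; abel
      simp only [mul_add, add_mul, smul_mul_assoc, mul_smul_comm, hX, hY, hXY, zero_smul, zero_add,
        smul_add, smul_smul]
      module
    exact (Submodule.mem_sInf.mp hU) L hLm
  intro hmem
  have hJ : LinearMap.ker ρ.toLinearMap ∈ {J : Submodule K (FA K) | (∀ U ∈ L0 K, U ^ (m + 1) ∈ J) ∧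
      ∀ a ∈ FPlus K, ∀ x ∈ J, a * x ∈ J ∧ x * a ∈ J} := by
    refine ⟨?_, ?_⟩
    · intro U hU
      obtain ⟨a, b, c, h1⟩ := hL U hU
      rw [LinearMap.mem_ker, AlgHom.toLinearMap_apply, map_pow, h1, h.nil]
    · intro a _ x hx
      rw [LinearMap.mem_ker, AlgHom.toLinearMap_apply] at hx
      constructor
      · rw [LinearMap.mem_ker, AlgHom.toLinearMap_apply, map_mul, hx, mul_zero]
      · rw [LinearMap.mem_ker, AlgHom.toLinearMap_apply, map_mul, hx, zero_mul]
  have := (Submodule.mem_sInf.mp hmem) _ hJ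
  rw [LinearMap.mem_ker, AlgHom.toLinearMap_apply, map_mul, map_pow, map_pow, hρ0, hρ1] at this
  exact h.ne this

/-- **Q1 is false for every `n ≥ 3` and every admissible field `K`** (characteristic `0`, or
characteristic `p > 3n/2`): `X^(n-1) Y^(n-1)` is a product of `2n - 2` elements of `K⟨X,Y⟩⁺` that is
not in `I`, so `A^(2n-2) ≠ 0`. -/
theorem result (n : ℕ) (hn : 3 ≤ n) (K : Type u) [Field K]
    (hK : CharZero K ∨ ∃ p : ℕ, p.Prime ∧ CharP K p ∧ 3 * n < 2 * p) :
    gen K 0 ^ (n - 1) * gen K 1 ^ (n - 1) ∉ I K n ∧ ¬ PowZero K n (2 * n - 2) := by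
  obtain ⟨m, rfl⟩ : ∃ m, n = m + 1 := ⟨n - 1, by omega⟩
  have hfac : ((m.factorial : ℕ) : K) ≠ 0 := by
    rcases hK with h0 | ⟨p, hp, hc, hlt⟩
    · exact Nat.cast_ne_zero.mpr (Nat.factorial_ne_zero m)
    · rw [Ne, CharP.cast_eq_zero_iff K p, hp.dvd_factorial]
      omega
  have key := not_mem K m hfac
  refine ⟨by simpa using key, fun hz => ?_⟩
  have hmemX : gen K 0 ∈ FPlus K := NonUnitalAlgebra.subset_adjoin K (by simp)
  have hmemY : gen K 1 ∈ FPlus K := NonUnitalAlgebra.subset_adjoin K (by simp)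
  have h1 := hz (fun i => if (i : ℕ) < m then gen K 0 else gen K 1) (by
    intro i
    split_ifs
    · exact hmemX
    · exact hmemY)
  apply key
  have e : 2 * (m + 1) - 2 = m + m := by omega
  have h2 : (List.ofFn fun i : Fin (2 * (m + 1) - 2) =>
      if (i : ℕ) < m then gen K 0 else gen K 1) =
      List.replicate m (gen K 0) ++ List.replicate m (gen K 1) := by
    apply List.ext_getElem
    · simp; omega
    · intro i h3 h4
      rw [List.getElem_ofFn, List.getElem_append]
      by_cases hi : i < m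
      · simp [hi]
      · simp [hi]
  rw [h2, List.prod_append, List.prod_replicate, List.prod_replicate] at h1
  exact h1

end Pool.Agent.Results.MP_776ebc_al.NeverNilpotent
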